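import Pool.Agent.Q7.CF.Stm

/-!
# Project CF, job INJ: the kernel of the class map (helper123; after the CJ proof of helper224)
-/

set_option autoImplicit false

namespace Pool.Agent.Q123.CF

open Polynomial
open Pool.Agent.Q7.CF

section sim

variable {B : Type} [CommRing B]

theorem sim_symm {I J : Ideal B} (h : Sim I J) : Sim J I := by
  obtain ⟨a, b, ha, hb, h⟩ := h
  exact ⟨b, a, hb, ha, h.symm⟩

theorem sim_trans [IsDomain B] {I J K : Ideal B} (h1 : Sim I J) (h2 : Sim J K) : Sim I K := by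
  obtain ⟨a, b, ha, hb, h1⟩ := h1
  obtain ⟨c, d, hc, hd, h2⟩ := h2
  refine ⟨c * a, b * d, mul_ne_zero hc ha, mul_ne_zero hb hd, ?_⟩
  rw [← Ideal.span_singleton_mul_span_singleton, ← Ideal.span_singleton_mul_span_singleton, mul_assoc, h1,
    mul_assoc, ← h2, ← mul_assoc, ← mul_assoc, mul_comm (Ideal.span {c})]

theorem sim_mul_left {I J : Ideal B} (h : Sim I J) (K : Ideal B) : Sim (K * I) (K * J) := by
  obtain ⟨a, b, ha, hb, h⟩ := h
  refine ⟨a, b, ha, hb, ?_⟩
  rw [mul_left_comm, h, mul_left_comm]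

/-- similarity is compatible with injective homomorphisms of rings -/
theorem sim_map {B' : Type} [CommRing B'] {I J : Ideal B} (h : Sim I J)
    (f : B →+* B') (hf : Function.Injective f) : Sim (I.map f) (J.map f) := by
  obtain ⟨a, b, ha, hb, h⟩ := h
  refine ⟨f a, f b, (map_ne_zero_iff f hf).2 ha, (map_ne_zero_iff f hf).2 hb, ?_⟩
  have h1 := congrArg (Ideal.map f) h
  rw [Ideal.map_mul, Ideal.map_mul, Ideal.map_span, Ideal.map_span, Set.image_singleton, Set.image_singleton] at h1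
  exact h1

theorem ne_bot_map {B' : Type} [CommRing B'] (f : B →+* B') (hf : Function.Injective f) {I : Ideal B}
    (hI : I ≠ ⊥) : I.map f ≠ ⊥ := by
  intro h
  rw [Ideal.map_eq_bot_iff_of_injective hf] at h
  exact hI h

end sim

section maps

variable {p r : ℕ} {L : Type} [Field L]

/-- two homomorphisms from the coordinate ring of the Fermat curve agree if they agree at `Y` and on `L[X]` -/
theorem hom_ext {S : Type} [CommRing S] {D : L} {f g : RF p D →+* S}
    (h1 : f (YF p D) = g (YF p D)) (h2 : ∀ a : L[X], f (AdjoinRoot.of (fF p D) a) = g (AdjoinRoot.of (fF p D) a)) :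
    f = g := by
  apply RingHom.ext
  intro b
  induction b using AdjoinRoot.induction_on with
  | ih q =>
    induction q using Polynomial.induction_on' with
    | add q r hq hr => rw [map_add, map_add, map_add, hq, hr]
    | monomial n a =>
      rw [← Polynomial.C_mul_X_pow_eq_monomial, map_mul, map_pow, AdjoinRoot.mk_C, AdjoinRoot.mk_X, map_mul, map_mul,
        map_pow, map_pow, h2]
      have h3 : f (AdjoinRoot.root (fF p D)) = g (AdjoinRoot.root (fF p D)) := h1
      rw [h3]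

theorem sF_alg (D ζ : L) (h : ζ ^ p = 1) (c : L) : sF p D ζ h (algebraMap L (RF p D) c) = algebraMap L (RF p D) c :=
  sF_of p D ζ h (C c)

theorem sF_sF (D ζ ζ' : L) (h : ζ ^ p = 1) (h' : ζ' ^ p = 1) (hh : ζ * ζ' = 1) (b : RF p D) :
    sF p D ζ' h' (sF p D ζ h b) = b := by
  have h1 : ((sF p D ζ' h' : RF p D →+* RF p D).comp (sF p D ζ h : RF p D →+* RF p D)) = RingHom.id _ := by
    apply hom_ext
    · change sF p D ζ' h' (sF p D ζ h (YF p D)) = YF p D
      rw [sF_YF, map_mul, sF_alg, sF_YF, ← mul_assoc, ← map_mul, hh, map_one, one_mul]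
    · intro a
      change sF p D ζ' h' (sF p D ζ h (AdjoinRoot.of (fF p D) a)) = AdjoinRoot.of (fF p D) a
      rw [sF_of, sF_of]
  exact RingHom.congr_fun h1 b

theorem sg_inj [Fact p.Prime] (D ζ : L) (h : ζ ^ p = 1) : Function.Injective (sg p r D ζ h) := by
  have hp : 0 < p := (Fact.out (p := p.Prime)).pos
  have hh : ζ * ζ ^ (p - 1) = 1 := by
    rw [← pow_succ', Nat.sub_add_cancel hp, h]
  have h' : (ζ ^ (p - 1)) ^ p = 1 := by rw [← pow_mul, mul_comm, pow_mul, h, one_pow]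
  intro a b hab
  apply Subtype.ext
  have hab' := congrArg (Subtype.val) hab
  rw [sg_val, sg_val] at hab'
  rw [← sF_sF D ζ (ζ ^ (p - 1)) h h' hh a, ← sF_sF D ζ (ζ ^ (p - 1)) h h' hh b, hab']

/-- `σ` and the extension of the field commute -/
theorem bc_sg {M : Type} [Field M] (φ : L →+* M) (D ζ : L) (D' ζ' : M) (hD : φ D = D') (hz : φ ζ = ζ')
    (h : ζ ^ p = 1) (h' : ζ' ^ p = 1) (b : BQ p r D) :
    bc p r φ D D' hD (sg p r D ζ h b) = sg p r D' ζ' h' (bc p r φ D D' hD b) := by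
  have h1 : ((bF p φ D D' hD).comp (sF p D ζ h : RF p D →+* RF p D)) =
      ((sF p D' ζ' h' : RF p D' →+* RF p D').comp (bF p φ D D' hD)) := by
    apply hom_ext
    · change bF p φ D D' hD (sF p D ζ h (YF p D)) = sF p D' ζ' h' (bF p φ D D' hD (YF p D))
      rw [sF_YF, map_mul, bF_alg, bF_YF, sF_YF, hz]
    · intro a
      change bF p φ D D' hD (sF p D ζ h (AdjoinRoot.of (fF p D) a)) =
        sF p D' ζ' h' (bF p φ D D' hD (AdjoinRoot.of (fF p D) a))
      rw [sF_of, bF_of, sF_of]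
  apply Subtype.ext
  rw [bc_val, sg_val, sg_val, bc_val]
  exact RingHom.congr_fun h1 (b : RF p D)

end maps

theorem inj : S_DED → S_NMM → S_MV → S_BC → S_CLOS → S_D4H → S_D5 → S_D6 → S_INJ := by
  intro hded hnmm _ hbc hclos hd4 hd5 hd6 p r _ hok L _ _ ζ hζ hprim D hD I hI s hs hnm
  have hpp : p.Prime := Fact.out
  obtain ⟨M, iM, iA, hfd, hgal, hJ⟩ := hclos p r L ζ hprim D hD I hI
  have hcM : CharZero M := charZero_of_injective_algebraMap (algebraMap L M).injective
  have hD' : algebraMap L M D ≠ 0 := (_root_.map_ne_zero _).2 hD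
  have h : (algebraMap L M ζ) ^ p = 1 := by rw [← map_pow, hζ, map_one]
  have hprimM : IsPrimitiveRoot (algebraMap L M ζ) p := hprim.map_of_injective (algebraMap L M).injective
  obtain ⟨J, hJ0, hJ1⟩ := hJ h
  have dL := (hded p r L D hD).1
  have dM := (hded p r M (algebraMap L M D) hD').1
  obtain ⟨ρ, hρ0, ⟨ν, hν0, hρ⟩, hτ⟩ := hd4 p r L ζ hprim D hD I hI (by rw [hnm]; exact pow_ne_zero _ hs)
    M (algebraMap L M) (algebraMap L M D) rfl h J hJ0 hJ1
  -- `ρ` lies in `L`
  have hρL : ∃ c : L, ρ = algebraMap L M c := by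
    have e1 : ρ ^ p = (algebraMap L M (s ^ (r + 1) * ν)) ^ p := by
      rw [hρ, hnm, ← map_pow]
      congr 1
      ring
    have hne : algebraMap L M (s ^ (r + 1) * ν) ≠ 0 :=
      (_root_.map_ne_zero _).2 (mul_ne_zero (pow_ne_zero _ hs) hν0)
    have e2 : (ρ / algebraMap L M (s ^ (r + 1) * ν)) ^ p = 1 := by
      rw [div_pow, e1, div_self (pow_ne_zero _ hne)]
    obtain ⟨j, -, hj⟩ := hprimM.eq_pow_of_pow_eq_one e2
    refine ⟨ζ ^ j * (s ^ (r + 1) * ν), ?_⟩
    rw [map_mul, map_pow, hj, div_mul_cancel₀ _ hne]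
  obtain ⟨c, hc⟩ := hρL
  -- invariance of the class of `J`
  obtain ⟨-, -, -, -, -, -, -, -, -, -, -, -, ht1, -⟩ := hnmm p r M (algebraMap L M D) hD'
  have hinv : ∀ τ : M ≃ₐ[L] M, Sim (J.map (ga p r D τ)) J := by
    intro τ
    obtain ⟨⟨k, hk⟩, hall⟩ := hτ ((τ : M →ₐ[L] M) : M →+* M) τ.bijective (fun x => τ.commutes x) (τ.commutes D)
    have e3 := hall k hk
    have e4 : ((τ : M →ₐ[L] M) : M →+* M) ρ = ρ := by
      rw [hc]; exact τ.commutes c
    rw [e4] at e3
    have e5 : algebraMap L M ζ ^ (r ^ 2 * k) = 1 := by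
      have := mul_right_cancel₀ hρ0 ((one_mul ρ).trans e3)
      exact this.symm
    have e6 : p ∣ r ^ 2 * k := hprimM.dvd_of_pow_eq_one _ e5
    have e7 : ¬ p ∣ r := fun hd => by
      have := Nat.le_of_dvd (by have := hok.h1; omega) hd
      have := hok.h2
      omega
    have e8 : p ∣ k := by
      rcases hpp.dvd_mul.mp e6 with h8 | h8
      · exact absurd (hpp.dvd_of_dvd_pow h8) e7
      · exact h8
    obtain ⟨m, rfl⟩ := e8
    refine sim_trans (J := J * t1 p r (algebraMap L M D) ^ (p * m)) hk ?_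
    refine ⟨1, uu p r (algebraMap L M D) ^ m, one_ne_zero, ?_, ?_⟩
    · have hne : uu p r (algebraMap L M D) ≠ 0 := by
        intro h0
        rw [h0] at ht1
        have h1 : t1 p r (algebraMap L M D) ^ p = ⊥ := by rw [ht1, Ideal.span_singleton_eq_bot]
        have h2 : t1 p r (algebraMap L M D) = ⊥ := by
          rw [← Ideal.zero_eq_bot] at h1 ⊢
          exact (pow_eq_zero_iff hpp.ne_zero).mp h1
        obtain ⟨-, -, -, -, -, -, -, -, hn, -⟩ := hnmm p r M (algebraMap L M D) hD'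
        exact hn h2
      exact pow_ne_zero _ hne
    · rw [pow_mul, ht1, Ideal.span_singleton_pow, Ideal.span_singleton_one, Ideal.top_mul, mul_comm]
  obtain ⟨J₀, hJ₀, hJ₀1⟩ := hd5 p r L D hD M J hJ0 hinv
  refine ⟨J₀, hJ₀, ?_⟩
  have hsg0 : J₀.map (sg p r D ζ hζ) ≠ ⊥ := ne_bot_map (sg p r D ζ hζ) (sg_inj D ζ hζ) hJ₀
  have hne : I * J₀.map (sg p r D ζ hζ) ≠ ⊥ := by
    intro h0
    rcases Ideal.mul_eq_bot.1 h0 with h0 | h0
    · exact hI h0
    · exact hsg0 h0
  refine hd6 p r L D hD M _ _ hne hJ₀ ?_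
  have hcomm : (J₀.map (sg p r D ζ hζ)).map (bc p r (algebraMap L M) D _ rfl) =
      (J₀.map (bc p r (algebraMap L M) D _ rfl)).map (sg p r (algebraMap L M D) (algebraMap L M ζ) h) := by
    rw [Ideal.map_map, Ideal.map_map]
    congr 1
    apply RingHom.ext
    intro b
    exact bc_sg (algebraMap L M) D ζ _ _ rfl rfl hζ h b
  rw [Ideal.map_mul, hcomm]
  have h1 : Sim ((J₀.map (bc p r (algebraMap L M) D _ rfl)).map (sg p r (algebraMap L M D) (algebraMap L M ζ) h))
      (J.map (sg p r (algebraMap L M D) (algebraMap L M ζ) h)) :=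
    sim_map hJ₀1 (sg p r (algebraMap L M D) (algebraMap L M ζ) h) (sg_inj _ _ h)
  exact sim_trans (sim_trans (sim_mul_left h1 _) hJ1) (sim_symm hJ₀1)

end Pool.Agent.Q123.CF
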